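import Mathlib
import Pool.Agent.X68.Iso

/-!
# MP_8474a0_co, Q1: the answer is no for every n

If `Γ` is finite and vertex-transitive and `h_{n+1}(Γ) > 2 (n+1) h_n(Γ)`, then some realizer of
`h_n(Γ)` is a system of imprimitivity of size `n` for `Aut Γ`.

Sketch: let `A` be the smallest part of a realizer. The automorphisms `g` for which `gA` and `A`
overlap substantially form a subgroup `K` of index `n`; an averaging argument gives a vertex `v0`
of `A` most of whose `K`-translates stay in `A`, which forces the stabilizer of `v0` into `K`, so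
that the `K`-orbit of `v0` is a block. The blocks have good internal expansion and small outer
boundary, and comparing the block system with the realizer shows that the blocks do not have
larger boundary ratio.
-/

open X68.Iso Finset Pointwise

namespace Pool.Agent.Results.MP_8474a0_co.BlockRealizer

/-- The edge boundary `∂A`: the edges of `Γ` with one endpoint in `A` and the other outside `A`. -/
def edgeBdry {V : Type*} (Γ : SimpleGraph V) (A : Set V) : Set (Sym2 V) :=
  {e | e ∈ Γ.edgeSet ∧ ∃ u ∈ A, ∃ w ∉ A, e = s(u, w)}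

/-- For a partition of `V` into the `n` sets `A i = f ⁻¹' {i}`, the number `max_i |∂A_i| / |A_i|`. -/
noncomputable def cost {V : Type*} (Γ : SimpleGraph V) {n : ℕ} (f : V → Fin n) : ℝ :=
  ⨆ i, ((edgeBdry Γ (f ⁻¹' {i})).ncard : ℝ) / ((f ⁻¹' {i}).ncard : ℝ)

/-- The `n`-way isoperimetric constant `h_n(Γ)`: the minimum of `cost` over all partitions of `V`
into `n` non-empty parts (surjections `f : V → Fin n`). -/
noncomputable def isoConst {V : Type*} (Γ : SimpleGraph V) (n : ℕ) : ℝ :=
  ⨅ f : {f : V → Fin n // Function.Surjective f}, cost Γ f.1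

/-- `f` is a realizer of `h_n(Γ)`: a partition into `n` non-empty parts attaining the minimum. -/
def IsRealizer {V : Type*} (Γ : SimpleGraph V) {n : ℕ} (f : V → Fin n) : Prop :=
  Function.Surjective f ∧ cost Γ f = isoConst Γ n

/-- The partition `(f ⁻¹' {i})_i` is a system of imprimitivity of size `n` for `Aut Γ`:
its `n` parts are non-empty and every automorphism maps every part onto a part. -/
def IsImprimitive {V : Type*} (Γ : SimpleGraph V) {n : ℕ} (f : V → Fin n) : Prop :=
  Function.Surjective f ∧ ∀ φ : Γ ≃g Γ, ∀ i, ∃ j, φ '' (f ⁻¹' {i}) = f ⁻¹' {j}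

lemma bdry_card {V : Type*} [Fintype V] [DecidableEq V] (Γ : SimpleGraph V) [DecidableRel Γ.Adj]
    (A : Finset V) : (edgeBdry Γ (A : Set V)).ncard = bd Γ A := by
  have h : edgeBdry Γ (A : Set V) = (((bdp Γ A).image fun p => s(p.1, p.2) : Finset (Sym2 V)) : Set (Sym2 V)) := by
    ext e
    simp only [edgeBdry, Set.mem_ofPred_eq, coe_image, Set.mem_image, mem_coe, mem_bdp]
    constructor
    · rintro ⟨he, u, hu, w, hw, rfl⟩
      exact ⟨(u, w), ⟨hu, hw, he⟩, rfl⟩
    · rintro ⟨p, ⟨h1, h2, h3⟩, rfl⟩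
      exact ⟨h3, p.1, h1, p.2, h2, rfl⟩
  rw [h, Set.ncard_coe_finset, bd, card_image_of_injOn]
  intro p hp q hq hpq
  rw [mem_coe, mem_bdp] at hp hq
  simp only [Sym2.eq, Sym2.rel_iff', Prod.mk.injEq, Prod.swap_prod_mk] at hpq
  rcases hpq with h | h
  · exact Prod.ext h.1 h.2
  · exfalso
    apply hp.2.1
    rw [h.2]
    exact hq.1

lemma fib_coe {V : Type*} [Fintype V] {n : ℕ} (f : V → Fin n) (i : Fin n) :
    f ⁻¹' {i} = (fib f i : Set V) := by
  classical
  ext v
  simp [mem_fib]

/-- For every `n ≥ 2` and every finite vertex-transitive graph `Γ` (connected or not) with at least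
`n + 1` vertices and `h_{n+1}(Γ) > 2 (n+1) h_n(Γ)`, some realizer of `h_n(Γ)` is a system of
imprimitivity of size `n` for `Aut Γ`. -/
theorem result (n : ℕ) (hn : 2 ≤ n) {V : Type*} [Fintype V] (Γ : SimpleGraph V)
    (htrans : ∀ u v : V, ∃ φ : Γ ≃g Γ, φ u = v) (hcard : n + 1 ≤ Fintype.card V)
    (hgap : 2 * ((n : ℝ) + 1) * isoConst Γ n < isoConst Γ (n + 1)) :
    ∃ f : V → Fin n, IsRealizer Γ f ∧ IsImprimitive Γ f := by
  classical
  have hfin : Finite (Γ ≃g Γ) :=
    Finite.of_injective (fun φ : Γ ≃g Γ => (φ : V → V)) DFunLike.coe_injective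
  have : Fintype (Γ ≃g Γ) := Fintype.ofFinite _
  have hcost : ∀ {m : ℕ} (f : V → Fin m), cost Γ f =
      ⨆ i, (bd Γ (fib f i) : ℝ) / ((fib f i).card : ℝ) := by
    intro m f
    unfold cost
    congr 1
    ext i
    rw [fib_coe, bdry_card, Set.ncard_coe_finset]
  have hratio : ∀ {m : ℕ} (f : V → Fin m) (i : Fin m),
      (bd Γ (fib f i) : ℝ) / ((fib f i).card : ℝ) ≤ cost Γ f := by
    intro m f i
    rw [hcost]
    exact le_ciSup (f := fun i => (bd Γ (fib f i) : ℝ) / ((fib f i).card : ℝ))
      (Set.finite_range _).bddAbove i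
  have hcost0 : ∀ {m : ℕ} (f : V → Fin m), 0 ≤ cost Γ f := by
    intro m f
    rw [hcost]
    exact Real.iSup_nonneg fun i => by positivity
  have hinf : ∀ {m : ℕ} (f : V → Fin m), Function.Surjective f → isoConst Γ m ≤ cost Γ f := by
    intro m f hf
    exact ciInf_le (f := fun f : {f : V → Fin m // Function.Surjective f} => cost Γ f.1)
      ⟨0, by rintro _ ⟨g, rfl⟩; exact hcost0 _⟩ ⟨f, hf⟩
  have hne : Nonempty {f : V → Fin n // Function.Surjective f} := by
    have hp : 0 < n := by omega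
    have : Nonempty (Fin n) := ⟨⟨0, hp⟩⟩
    obtain ⟨e⟩ : Nonempty (Fin n ↪ V) :=
      Function.Embedding.nonempty_of_card_le (by rw [Fintype.card_fin]; omega)
    exact ⟨⟨Function.invFun e, Function.invFun_surjective e.injective⟩⟩
  obtain ⟨⟨f, hf⟩, hfr⟩ := exists_eq_ciInf_of_finite
    (f := fun f : {f : V → Fin n // Function.Surjective f} => cost Γ f.1)
  have hfr' : cost Γ f = isoConst Γ n := hfr
  have hh : 0 ≤ isoConst Γ n := by rw [← hfr']; exact hcost0 f
  have hfb : ∀ i, (bd Γ (fib f i) : ℝ) ≤ isoConst Γ n * (fib f i).card := by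
    intro i
    have h1 := hratio f i
    have h2 : (0 : ℝ) < (fib f i).card := by exact_mod_cast fib_pos hf i
    rw [div_le_iff₀ h2, hfr'] at h1
    exact h1
  have hG : Gap Γ n (isoConst Γ (n + 1)) := by
    intro f' hf'
    obtain ⟨i, hi⟩ := exists_eq_ciSup_of_finite
      (f := fun i => (bd Γ (fib f' i) : ℝ) / ((fib f' i).card : ℝ))
    refine ⟨i, ?_⟩
    have h1 := hinf f' hf'
    rw [hcost, ← hi] at h1
    have h2 : (0 : ℝ) < (fib f' i).card := by exact_mod_cast fib_pos hf' i
    rwa [le_div_iff₀ h2] at h1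
  obtain ⟨F, hFs, hFe, hFb⟩ := main_abs Γ (G := Γ ≃g Γ) (fun g u v => g.map_rel_iff)
    (fun u v => htrans u v) hn hG hh (by exact_mod_cast hgap) f hf hfb
  have hFc : cost Γ F = isoConst Γ n := by
    refine le_antisymm ?_ (hinf F hFs)
    rw [hcost]
    have : Nonempty (Fin n) := ⟨⟨0, by omega⟩⟩
    refine ciSup_le fun i => ?_
    have h2 : (0 : ℝ) < (fib F i).card := by exact_mod_cast fib_pos hFs i
    rw [div_le_iff₀ h2]
    exact hFb i
  refine ⟨F, ⟨hFs, hFc⟩, hFs, ?_⟩
  intro φ i
  obtain ⟨u, hu⟩ := hFs i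
  refine ⟨F (φ u), ?_⟩
  ext v
  simp only [Set.mem_image, Set.mem_preimage, Set.mem_singleton_iff]
  constructor
  · rintro ⟨w, hw, rfl⟩
    exact (hFe φ w u).2 (hw.trans hu.symm)
  · intro hv
    refine ⟨φ.symm v, ?_, φ.apply_symm_apply v⟩
    have h1 : F (φ • φ.symm v) = F (φ • u) := by
      show F (φ (φ.symm v)) = F (φ u)
      rw [φ.apply_symm_apply]
      exact hv
    rw [hFe] at h1
    exact h1.trans hu

end Pool.Agent.Results.MP_8474a0_co.BlockRealizer
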